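import Pool.Graph.R_pool_sql_team_39128cda.H.MP_4a7829_pr.A

/-!
Planar point processes depending on the sum of the coordinates only, with windows of length
`2 ^ n j` in every period `2 ^ m j`. In contrast to the library, the windows of one scale may be
shorter than the periods of the previous scale.
-/

set_option linter.unusedSectionVars false
set_option linter.unusedVariables false
set_option linter.dupNamespace false

namespace Pool.Agent.H99.PW

open Finset MeasureTheory ProbabilityTheory Measure Filter Topology Pool.Agent.Lib.helper3.Padic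
open Pool.Agent.H.MP_01c081_pr (th dir gap nbr Full DPP Palm nb' iv iv_iv dir_iv gap_le gap_mem
  nb_iv walk_eq gap_m Xi walk trans en_s)
open scoped ENNReal

/-- Admissible sequences of exponents. -/
structure Adm (n m : ℕ → ℕ) : Prop where
  h1 : ∀ j, n j + j + 2 ≤ m j
  h3 : ∀ j, n (j + 1) ≤ m j
  h4 : ∀ j, m j + 1 ≤ m (j + 1)
  h5 : ∑' j, (2 : ENNReal) ^ m j * (2 ^ m (j + 1))⁻¹ ≠ ⊤
  mono : Monotone n

variable (n m : ℕ → ℕ)

/-- No window of any scale contains `z`. -/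
def occ (z : ℤ_[2]) : Prop := ∀ j, ¬ (0 < res (m j) z ∧ res (m j) z < 2 ^ n j)

open Classical in
/-- The configuration given by the 2-adic integer `z`. -/
noncomputable def Ph (z : ℤ_[2]) (v : ℤ × ℤ) : Bool := decide (occ n m (z + (v.1 + v.2 : ℤ)))

lemma occ_m : Measurable (occ n m) := by
  refine .forall fun j => .not (measurableSet_setOfPred.1 ?_)
  exact res_meas (p := 2) (m j) (MeasurableSet.of_discrete (s := {a | 0 < a ∧ a < 2 ^ n j}))

lemma Ph_m : Measurable (Ph n m) := measurable_pi_lambda _ fun v => measurable_to_bool (by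
  have : (fun z => Ph n m z v) ⁻¹' {true} = {z | occ n m (z + (v.1 + v.2 : ℤ))} := by ext; simp [Ph]
  rw [this, measurableSet_setOfPred]
  exact (occ_m n m).comp (measurable_add_const _))

/-- The law of the configuration when `z` is uniform. -/
noncomputable def QQ : Measure (ℤ × ℤ → Bool) := (H 2).map (Ph n m)

instance : IsProbabilityMeasure (QQ n m) := isProbabilityMeasure_map (Ph_m n m).aemeasurable

/-- The structure of almost all configurations. -/
def Str (ω : ℤ × ℤ → Bool) : Prop := (∀ v : ℤ × ℤ, ω v = true ↔ ω (v.1 + v.2, 0) = true) ∧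
  ∃ j0, ∀ j, j0 ≤ j → ∃ r : ℤ, (∀ c u : ℤ, |c| ≤ 3 * 2 ^ m j → u = 0 ∨ u = -1 ∨ u = 2 ^ n j →
    (2 : ℤ) ^ (m j) ∣ r + c - u → ω (c, 0) = true) ∧
    ∀ c t : ℤ, (2 : ℤ) ^ (m j) ∣ r + c → 0 < t → t < 2 ^ n j → ¬ ω (c + t, 0) = true

variable {n m} {ω : ℤ × ℤ → Bool} (A : Adm n m)
include A

lemma Adm.m_mono : Monotone m := monotone_nat_of_le_succ fun j => by have := A.h4 j; omega

lemma low (j : ℕ) : ((2 : ℝ≥0∞) ^ (m j))⁻¹ / 2 ≤ H 2 {z | occ n m z ∧ res (m j) z = 0} := by
  obtain ⟨u, hu⟩ : ∃ u, u = ((2 : ℝ≥0∞) ^ (m j))⁻¹ := ⟨_, rfl⟩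
  have b : ∀ i, H 2 {z | res (m j) z = 0 ∧ 0 < res (m i) z ∧
      res (m i) z < 2 ^ n i} ≤ u / 2 * 2⁻¹ ^ (i + 1) := fun i => by
    rcases le_or_gt i j with h | h
    · refine ((congrArg _ (Set.eq_empty_of_forall_notMem ?_)).trans measure_empty).trans_le zero_le
      rintro z ⟨h1, h2, -⟩
      rw [res_mono (n := m j) (A.m_mono h), h1] at h2
      simp at h2
    have hm : m j ≤ m i := A.m_mono h.le
    rcases le_or_gt (n i) (m j) with hk | hk
    · refine ((congrArg _ (Set.eq_empty_of_forall_notMem ?_)).trans measure_empty).trans_le zero_le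
      rintro z ⟨h1, h2, h3⟩
      rw [res_mono (n := m i) hm] at h1
      have h4 := Int.le_of_dvd h2 (Int.dvd_of_emod_eq_zero h1)
      have h5 : (2 : ℤ) ^ n i ≤ 2 ^ m j := pow_le_pow_right₀ (by norm_num) hk
      push_cast at h4
      linarith
    obtain ⟨k, hk⟩ := Nat.exists_eq_add_of_le hk.le
    refine (measure_mono ?_).trans ((H_res_le (m i) ((range (2 ^ k)).image fun a : ℕ =>
      (2 : ℤ) ^ (m j) * a)).trans ?_)
    · rintro z ⟨h1, h2, h3⟩
      rw [res_mono (n := m i) hm] at h1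
      obtain ⟨a, ha⟩ := Int.dvd_of_emod_eq_zero h1
      rw [ha] at h2 h3
      rw [hk, pow_add (2 : ℤ) _ k] at h3
      have a0 := pos_of_mul_pos_right h2 (by positivity)
      lift a to ℕ using a0.le
      exact mem_image.2 ⟨a, mem_range.2 (by exact_mod_cast lt_of_mul_lt_mul_left h3 (by positivity)),
        ha.symm⟩
    · refine (mul_le_mul_left (Nat.cast_le.2 (card_image_le.trans (card_range _).le)) _).trans ?_
      have h5 := A.h1 i
      have h6 : ((2 : ℝ≥0∞) ^ m i)⁻¹ ≤ (2 ^ (k + (m j + 1 + (i + 1))))⁻¹ :=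
        ENNReal.inv_le_inv.2 (pow_le_pow_right₀ (by norm_num) (by omega))
      refine (mul_le_mul_right h6 _).trans_eq ?_
      rw [hu, pow_add _ k,
        pow_add _ _ (i + 1), pow_succ _ (m j), ENNReal.mul_inv (by simp) (by simp),
        ENNReal.mul_inv (by simp) (by simp), ENNReal.mul_inv (by simp) (by simp), ← mul_assoc]
      push_cast
      rw [ENNReal.mul_inv_cancel (by simp) (by simp), one_mul, ← ENNReal.inv_pow, div_eq_mul_inv]
  have s : u ≤ H 2 {z | occ n m z ∧ res (m j) z = 0} + u / 2 := by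
    have := H_res (p := 2) (m j) (a := 0) le_rfl (by positivity)
    push_cast at this
    refine (hu.trans this.symm).le.trans ((measure_mono ?_).trans ((measure_union_le _ _).trans
      (add_le_add_right ((measure_iUnion_le _).trans ((ENNReal.tsum_le_tsum b).trans_eq ?_)) _)))
    · intro z hz
      by_cases h : occ n m z
      · exact .inl ⟨h, hz⟩
      · obtain ⟨i, hi⟩ := not_forall.1 h
        exact .inr (Set.mem_iUnion.2 ⟨i, hz, not_not.1 hi⟩)
    · rw [ENNReal.tsum_mul_left, ENNReal.tsum_geometric_add_one, ENNReal.one_sub_inv_two, inv_inv,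
        ENNReal.inv_mul_cancel (by simp) (by simp), mul_one]
  rw [← hu]
  nth_rewrite 1 [← ENNReal.add_halves u] at s
  exact ENNReal.le_of_add_le_add_right (by rw [hu]; exact ENNReal.div_ne_top (by simp) (by simp)) s

lemma Q0 : QQ n m {ω | ω 0 = true} ≠ 0 := by
  rw [QQ, map_apply (Ph_m n m) (measurableSet_setOfPred.2 (by fun_prop))]
  refine (lt_of_lt_of_le (ENNReal.div_pos (by simp) (by simp)) ((low A 0).trans
    (measure_mono fun z hz => ?_))).ne'
  simpa [Ph] using hz.1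

lemma dpp : DPP (QQ n m) := by
  have mp : MeasurePreserving (Ph n m) (H 2) (QQ n m) := ⟨Ph_m n m, rfl⟩
  refine ⟨inferInstance, mp.ergodic_of_ergodic_semiconj ergodic (by unfold th; fun_prop) fun z => ?_,
    mp.ergodic_of_ergodic_semiconj ergodic (by unfold th; fun_prop) fun z => ?_, ?_⟩
  · ext v; simp only [Ph, th, Prod.fst_add, Prod.snd_add]; congr 2; push_cast; ring
  · ext v; simp only [Ph, th, Prod.fst_add, Prod.snd_add]; congr 2; push_cast; ring
  · refine (measure_mono (t := {ω | ω 0 = true}ᶜ) fun ω h => by simp [h 0]).trans_lt ?_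
    rw [prob_compl_eq_one_sub (measurableSet_setOfPred.2 (by fun_prop))]
    exact ENNReal.sub_lt_self (by simp) (by simp) (Q0 A)

lemma str : ∀ᵐ ω ∂QQ n m, Str n m ω := by
  refine (ae_map_iff (Ph_m n m).aemeasurable (measurableSet_setOfPred.2 (by unfold Str; fun_prop))).2 ?_
  have b : ∀ i, H 2 {z | res (m (i + 1)) (z + ((3 * 2 ^ m i : ℤ) : ℤ_[2])) ∈
      Ico (0 : ℤ) (7 * 2 ^ m i)} ≤ 7 * (2 ^ m i * (2 ^ m (i + 1))⁻¹) := fun i => by
    refine (measure_preimage_add_right (H 2) ((3 * 2 ^ m i : ℤ) : ℤ_[2])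
      {z | res (m (i + 1)) z ∈ Ico (0 : ℤ) (7 * 2 ^ m i)}).le.trans ((H_res_le _ _).trans ?_)
    rw [Int.card_Ico, sub_zero, show (7 * 2 ^ m i : ℤ) = (7 * 2 ^ m i : ℕ) by simp, Int.toNat_natCast]
    push_cast
    rw [mul_assoc]
  filter_upwards [ae_eventually_notMem (ne_top_of_le_ne_top (by
    rw [ENNReal.tsum_mul_left]; exact ENNReal.mul_ne_top (by simp) A.h5)
    (ENNReal.tsum_le_tsum b))] with z hz
  obtain ⟨j0, hj⟩ := eventually_atTop.1 hz
  refine ⟨fun v => by simp [Ph], j0, fun j h => ⟨res (m j) z, fun c u hc hu hd => ?_,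
    fun c t hd t0 t1 ho => ?_⟩⟩
  · simp only [Ph, add_zero, decide_eq_true_eq]
    rintro i ⟨h1, h2⟩
    have p1 : (0 : ℤ) < 2 ^ n i := by positivity
    have p2 : (2 : ℤ) ^ (n i + i + 2) = 2 ^ n i * 2 ^ i * 4 := by ring
    have p3 : (1 : ℤ) ≤ 2 ^ i := one_le_pow₀ (by norm_num)
    have p4 : (2 : ℤ) ^ (n i + i + 2) ≤ 2 ^ m i := pow_le_pow_right₀ (by norm_num) (A.h1 i)
    have p5 : (2 : ℤ) ^ n i * 4 ≤ 2 ^ m i := by nlinarith
    rcases le_or_gt i j with hi | hi
    · have hm : m i ≤ m j := A.m_mono hi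
      have e : res (m i) (z + (c : ℤ_[2])) = u % 2 ^ (m i) := by
        rw [res_mono hm, res_add]; push_cast
        rw [Int.emod_emod_of_dvd _ (pow_dvd_pow _ hm)]
        exact (Int.emod_emod_of_dvd _ (dvd_refl _)).symm.trans ((Int.emod_emod_of_dvd _ (dvd_refl _)).trans
          (Int.emod_eq_emod_iff_emod_sub_eq_zero.2 (Int.emod_eq_zero_of_dvd ((pow_dvd_pow _ hm).trans hd))))
      rw [e] at h1 h2
      rcases hu with rfl | rfl | rfl
      · simp at h1
      · rw [← Int.add_emod_right, Int.emod_eq_of_lt (by linarith) (by linarith)] at h2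
        linarith
      · have p6 : (2 : ℤ) ^ n i ≤ 2 ^ n j := pow_le_pow_right₀ (by norm_num) (A.mono hi)
        rcases le_or_gt (m i) (n j) with hi' | hi'
        · rw [Int.emod_eq_zero_of_dvd (pow_dvd_pow _ hi')] at h1; exact h1.false
        · rw [Int.emod_eq_of_lt (by positivity) (pow_lt_pow_right₀ (by norm_num) hi')] at h2
          linarith
    · obtain ⟨i, rfl⟩ : ∃ i', i = i' + 1 := ⟨i - 1, by omega⟩
      have k := hj i (by omega)
      have k1 := res_lt (m (i + 1)) (z + ((3 * 2 ^ m i : ℤ) : ℤ_[2]))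
      simp only [mem_Ico, res_nonneg, true_and, not_lt] at k
      have c1 := abs_le.1 (hc.trans (mul_le_mul_of_nonneg_left
        (pow_le_pow_right₀ (by norm_num) (A.m_mono (show j ≤ i by omega))) (by norm_num)))
      have c2 : (2 : ℤ) ^ n (i + 1) ≤ 2 ^ m i := pow_le_pow_right₀ (by norm_num) (A.h3 i)
      have c3 : (0 : ℤ) < 2 ^ m i := by positivity
      rw [show z + (c : ℤ_[2]) = z + ((3 * 2 ^ m i : ℤ) : ℤ_[2]) + ((c - 3 * 2 ^ m i : ℤ) : ℤ_[2]) by push_cast; ring,
        res_add, Int.emod_eq_of_lt (by linarith) (by push_cast at k1 ⊢; linarith)] at h2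
      linarith
  · simp only [Ph, add_zero, decide_eq_true_eq] at ho
    refine ho j ?_
    have p1 : (2 : ℤ) ^ n j ≤ 2 ^ (m j) := pow_le_pow_right₀ (by norm_num) (by have := A.h1 j; omega)
    rw [res_add, ← add_assoc, Int.add_emod]; push_cast
    rw [Int.emod_eq_zero_of_dvd hd, zero_add, Int.emod_emod, Int.emod_eq_of_lt t0.le (by linarith)]
    exact ⟨t0, t1⟩

lemma palm : ∀ᵐ ω ∂Palm (QQ n m), Str n m ω ∧ ω 0 = true :=
  Eventually.and (cond_absolutelyContinuous.ae_le (str A)) (ae_cond_mem (measurableSet_setOfPred.2 (by fun_prop)))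

lemma win (h : Str n m ω) : ∃ j0, ∀ j, j0 ≤ j → ∀ v : ℤ × ℤ, |v.1 + v.2| ≤ 2 * 2 ^ m j → ∀ d,
    ∃ t : ℕ, 0 < t ∧ t ≤ 2 ^ (m j) ∧ ω (v + t • dir d) = true := by
  obtain ⟨h1, j0, h2⟩ := h
  refine ⟨j0, fun j hj v hv d => ?_⟩
  obtain ⟨r, h3, -⟩ := h2 j hj
  obtain ⟨M, hM⟩ : ∃ M : ℤ, M = 2 ^ (m j) := ⟨_, rfl⟩
  have M0 : 0 < M := by rw [hM]; positivity
  have k : ∀ s : ℤ, s = 1 ∨ s = -1 → ∃ t : ℕ, 0 < t ∧ t ≤ 2 ^ (m j) ∧
      ω (v.1 + v.2 + t * s, 0) = true := fun s hs => by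
    have a1 := Int.emod_nonneg (s * (r + (v.1 + v.2))) M0.ne'
    have a2 := Int.emod_lt_of_pos (s * (r + (v.1 + v.2))) M0
    have a3 := Int.mul_ediv_add_emod (s * (r + (v.1 + v.2))) M
    obtain ⟨t, ht⟩ := Int.eq_ofNat_of_zero_le (a := M - s * (r + (v.1 + v.2)) % M) (by linarith)
    rw [← hM] at h3
    rw [← hM] at hv
    have := abs_le.1 hv
    refine ⟨t, by omega, by zify; omega, h3 _ 0 (abs_le.2 ?_) (.inl rfl)
      ⟨s * (1 + s * (r + (v.1 + v.2)) / M), ?_⟩⟩
    · rcases hs with rfl | rfl <;> constructor <;> linarith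
    · rcases hs with rfl | rfl <;> linarith
  fin_cases d
  · simpa [dir, h1 (_ + _), add_right_comm] using k 1 (.inl rfl)
  · simpa [dir, h1 (_ + _), add_right_comm] using k (-1) (.inr rfl)
  · simpa [dir, h1 (_ + _), add_assoc] using k 1 (.inl rfl)
  · simpa [dir, h1 (_ + _), add_assoc] using k (-1) (.inr rfl)

lemma m_ge (j : ℕ) : j ≤ 2 ^ m j := by
  have := A.h1 j
  exact (by omega : j ≤ m j).trans Nat.lt_two_pow_self.le

lemma full (h : Str n m ω) : Full ω := fun v d => by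
  obtain ⟨j0, h⟩ := win A h
  have := m_ge A (j0 + (v.1 + v.2).natAbs)
  obtain ⟨t, h1, -, h2⟩ := h (j0 + (v.1 + v.2).natAbs) (by omega) v (by
    zify at this; linarith [abs_nonneg (v.1 + v.2), Int.natCast_nonneg j0]) d
  exact ⟨t, h1, h2⟩

end Pool.Agent.H99.PW
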