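import Pool.Agent.H99.PW.M

/-!
The tail of the gaps for the sequences `nP`, `mP`.
-/

set_option linter.unusedSectionVars false
set_option linter.unusedVariables false
set_option linter.dupNamespace false

namespace Pool.Agent.H99.PW

open Finset MeasureTheory ProbabilityTheory Measure Filter Topology Pool.Agent.Lib.helper3.Padic
open Pool.Agent.H.MP_01c081_pr (th dir gap nbr Full DPP Palm nb' iv iv_iv dir_iv gap_le gap_mem
  nb_iv walk_eq gap_m Xi walk trans en_s)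
open scoped ENNReal

lemma two_n (j : ℕ) : nP j * 2 = mP j + (4 + el j * 4 + el (j + 1) * 8) := by
  unfold nP mP
  ring

lemma small (j : ℕ) : (2 : ℝ) ^ (4 + el j * 4 + el (j + 1) * 8) ≤ 65536 * ((j : ℝ) + 3) ^ 12 := by
  have h1 : (2 : ℝ) ^ el j ≤ 2 * (j + 3) := by
    have : ((2 ^ el j : ℕ) : ℝ) ≤ ((2 * (j + 2) : ℕ) : ℝ) := by exact_mod_cast el_le j
    push_cast at this
    linarith
  have h2 : (2 : ℝ) ^ el (j + 1) ≤ 2 * (j + 3) := by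
    have : ((2 ^ el (j + 1) : ℕ) : ℝ) ≤ ((2 * (j + 1 + 2) : ℕ) : ℝ) := by exact_mod_cast el_le (j + 1)
    push_cast at this
    linarith
  have h3 := pow_le_pow_left₀ (by positivity) h1 4
  have h4 := pow_le_pow_left₀ (by positivity) h2 8
  rw [pow_add, pow_add, pow_mul, pow_mul]
  calc (2 : ℝ) ^ 4 * (2 ^ el j) ^ 4 * (2 ^ el (j + 1)) ^ 8
      ≤ 2 ^ 4 * (2 * (j + 3)) ^ 4 * (2 * (j + 3)) ^ 8 := by gcongr
    _ = 65536 * ((j : ℝ) + 3) ^ 12 := by ring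

lemma inv_mP (j : ℕ) : ((2 : ℝ) ^ mP j)⁻¹ ≤ 65536 * ((j : ℝ) + 3) ^ 12 * (((2 : ℝ) ^ nP j) ^ 2)⁻¹ := by
  rw [← pow_mul, two_n, pow_add, mul_inv, ← mul_assoc, mul_right_comm]
  refine le_mul_of_one_le_left (by positivity) ?_
  rw [← div_eq_mul_inv, one_le_div (by positivity)]
  exact small j

lemma nP_ge (j : ℕ) : j + 100 ≤ nP j := by
  have := mu_ge j
  unfold nP
  omega

lemma sum_ne {s : ℝ} (h0 : 0 ≤ s) (h2 : s < 2) :
    ∑' j, ((2 : ℝ≥0∞) ^ nP j) ^ s * ((2 : ℝ≥0∞) ^ mP j)⁻¹ ≠ ⊤ := by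
  obtain ⟨r, hr⟩ : ∃ r : ℝ, r = (2 : ℝ) ^ (s - 2) := ⟨_, rfl⟩
  have r0 : 0 < r := by rw [hr]; positivity
  have r1 : r < 1 := by rw [hr]; exact Real.rpow_lt_one_of_one_lt_of_neg (by norm_num) (by linarith)
  have hs : Summable fun j : ℕ => 65536 * ((j : ℝ) + 3) ^ 12 * r ^ j := by
    have hr1 : ‖r‖ < 1 := by rw [Real.norm_eq_abs, abs_of_pos r0]; exact r1
    have hg : Summable fun j : ℕ => (j : ℝ) ^ 12 * r ^ j :=
      summable_pow_mul_geometric_of_norm_lt_one 12 hr1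
    have h : Summable fun j : ℕ => ((j + 3 : ℕ) : ℝ) ^ 12 * r ^ (j + 3) :=
      (summable_nat_add_iff (f := fun j : ℕ => (j : ℝ) ^ 12 * r ^ j) 3).2 hg
    have h' := h.mul_left (65536 * (r ^ 3)⁻¹)
    have e : (fun j : ℕ => 65536 * ((j : ℝ) + 3) ^ 12 * r ^ j) =
        fun j : ℕ => 65536 * (r ^ 3)⁻¹ * (((j + 3 : ℕ) : ℝ) ^ 12 * r ^ (j + 3)) := by
      funext j
      have h3 : r ^ 3 ≠ 0 := by positivity
      have h4 : r ^ (j + 3) = r ^ 3 * r ^ j := by rw [pow_add, mul_comm]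
      have h5 : ((j + 3 : ℕ) : ℝ) = (j : ℝ) + 3 := by push_cast; rfl
      rw [h4, h5]
      generalize ((j : ℝ) + 3) ^ 12 = a
      generalize r ^ j = b
      calc 65536 * a * b = 65536 * a * b * ((r ^ 3)⁻¹ * r ^ 3) := by rw [inv_mul_cancel₀ h3, mul_one]
        _ = 65536 * (r ^ 3)⁻¹ * (a * (r ^ 3 * b)) := by ring
    rw [e]
    exact h'
  refine ne_top_of_le_ne_top hs.tsum_ofReal_ne_top (ENNReal.tsum_le_tsum fun j => ?_)
  rw [← ENNReal.ofReal_ofNat, ← ENNReal.ofReal_pow (by norm_num), ← ENNReal.ofReal_pow (by norm_num),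
    ENNReal.ofReal_rpow_of_nonneg (by positivity) h0, ← ENNReal.ofReal_inv_of_pos (by positivity),
    ← ENNReal.ofReal_mul (by positivity)]
  refine ENNReal.ofReal_le_ofReal ?_
  have h3 := mul_le_mul_of_nonneg_left (inv_mP j) (show 0 ≤ ((2 : ℝ) ^ nP j) ^ s by positivity)
  refine h3.trans ?_
  have h4 : ((2 : ℝ) ^ nP j) ^ s * (((2 : ℝ) ^ nP j) ^ 2)⁻¹ = ((2 : ℝ) ^ nP j) ^ (s - 2) := by
    rw [Real.rpow_sub (by positivity), div_eq_mul_inv, Real.rpow_ofNat]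
  have h5 : ((2 : ℝ) ^ nP j) ^ (s - 2) = r ^ nP j := by
    rw [hr, ← Real.rpow_natCast, ← Real.rpow_natCast, ← Real.rpow_mul (by norm_num),
      ← Real.rpow_mul (by norm_num), mul_comm]
  have h6 : r ^ nP j ≤ r ^ j := pow_le_pow_of_le_one r0.le r1.le (by have := nP_ge j; omega)
  calc ((2 : ℝ) ^ nP j) ^ s * (65536 * ((j : ℝ) + 3) ^ 12 * (((2 : ℝ) ^ nP j) ^ 2)⁻¹)
      = 65536 * ((j : ℝ) + 3) ^ 12 * (((2 : ℝ) ^ nP j) ^ s * (((2 : ℝ) ^ nP j) ^ 2)⁻¹) := by ring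
    _ = 65536 * ((j : ℝ) + 3) ^ 12 * r ^ nP j := by rw [h4, h5]
    _ ≤ _ := by gcongr

lemma scale {K : ℕ} (hK : 2 ≤ K) : ∃ j0, (∀ j, K ≤ 2 ^ nP j → j0 ≤ j) ∧
    ((2 : ℝ) ^ mP j0)⁻¹ ≤ 65536 * 8 ^ 12 * (Real.log K ^ 12 / (K : ℝ) ^ 2) := by
  classical
  have hex : ∃ j, K ≤ 2 ^ nP j := ⟨K, by
    have h1 : K < 2 ^ K := Nat.lt_two_pow_self
    have h2 : 2 ^ K ≤ 2 ^ nP K := Nat.pow_le_pow_right (by norm_num) (by have := nP_ge K; omega)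
    omega⟩
  obtain ⟨j0, hj0⟩ : ∃ j0, j0 = Nat.find hex := ⟨_, rfl⟩
  have hs : K ≤ 2 ^ nP j0 := by rw [hj0]; exact Nat.find_spec hex
  refine ⟨j0, fun j hj => by rw [hj0]; exact Nat.find_min' hex hj, ?_⟩
  have hK0 : (0 : ℝ) < K := by positivity
  have hl2 : 0.6931471803 < Real.log 2 := Real.log_two_gt_d9
  have hlK : Real.log 2 ≤ Real.log K := Real.log_le_log (by norm_num) (by exact_mod_cast hK)
  have h3 : ((j0 : ℝ) + 3) ≤ 8 * Real.log K := by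
    rcases j0 with _ | i
    · push_cast
      linarith
    · have h4 : ¬ K ≤ 2 ^ nP i := Nat.find_min hex (by omega)
      have h5 : ((2 : ℝ) ^ nP i) ≤ K := by exact_mod_cast (not_le.1 h4).le
      have h6 := Real.log_le_log (by positivity) h5
      rw [Real.log_pow] at h6
      have h7 : ((i + 100 : ℕ) : ℝ) ≤ nP i := by exact_mod_cast nP_ge i
      push_cast at h7 ⊢
      have h8 : (0 : ℝ) ≤ i := Nat.cast_nonneg i
      nlinarith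
  have h9 : (K : ℝ) ≤ 2 ^ nP j0 := by exact_mod_cast hs
  calc ((2 : ℝ) ^ mP j0)⁻¹ ≤ 65536 * ((j0 : ℝ) + 3) ^ 12 * (((2 : ℝ) ^ nP j0) ^ 2)⁻¹ := inv_mP j0
    _ ≤ 65536 * (8 * Real.log K) ^ 12 * ((K : ℝ) ^ 2)⁻¹ := by gcongr
    _ = _ := by rw [mul_pow]; ring

theorem main : ∃ Q, DPP Q ∧ Q {ω | ω 0 = true} ≠ 0 ∧
    (∃ C : ℝ, ∀ (d : Fin 4) (K : ℕ), 2 ≤ K →
      (Palm Q).real {ω | K ≤ gap (dir d) ω} ≤ C * (Real.log K ^ 12 / (K : ℝ) ^ 2)) ∧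
    (∀ s : ℝ, 0 ≤ s → s < 2 → ∀ d : Fin 4,
      ∫⁻ ω, ((gap (dir d) ω : ℕ) : ℝ≥0∞) ^ s ∂(Palm Q) < ⊤) ∧
    ∀ᵐ ω ∂(Palm Q), Full ω ∧ ∀ᵐ ξ ∂Xi, {n | walk (nbr ω) 0 ξ n = 0}.Finite := by
  refine ⟨QQ nP mP, dpp admP, Q0 admP, ?_, fun s h0 h2 d => moment admP h0 (sum_ne h0 h2) d,
    (palm admP).mono fun ω h => ⟨full admP h.1, transP h.1 h.2⟩⟩
  refine ⟨((QQ nP mP).real {ω | ω 0 = true})⁻¹ * (4 * (65536 * 8 ^ 12)), fun d K hK => ?_⟩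
  obtain ⟨j0, h1, h2⟩ := scale hK
  have h3 := tail admP hK h1 d
  have hq : QQ nP mP {ω | ω 0 = true} ≠ 0 := Q0 admP
  have h4 := ENNReal.toReal_mono (ENNReal.mul_ne_top (ENNReal.inv_ne_top.2 hq)
    (ENNReal.mul_ne_top (by simp) (by simp))) h3
  rw [ENNReal.toReal_mul, ENNReal.toReal_inv, ENNReal.toReal_mul, ENNReal.toReal_inv,
    ENNReal.toReal_pow] at h4
  simp only [ENNReal.toReal_ofNat] at h4
  refine h4.trans ?_
  have h5 : (0 : ℝ) ≤ ((QQ nP mP).real {ω | ω 0 = true})⁻¹ := by positivity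
  calc ((QQ nP mP {ω | ω 0 = true}).toReal)⁻¹ * (4 * ((2 : ℝ) ^ mP j0)⁻¹)
      ≤ ((QQ nP mP).real {ω | ω 0 = true})⁻¹ *
        (4 * (65536 * 8 ^ 12 * (Real.log K ^ 12 / (K : ℝ) ^ 2))) := by
        rw [Measure.real] at h5 ⊢
        gcongr
    _ = _ := by ring

end Pool.Agent.H99.PW
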