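import Pool.Agent.H99.PW.T

/-!
Moments of the gaps.
-/

set_option linter.unusedSectionVars false
set_option linter.unusedVariables false
set_option linter.dupNamespace false

namespace Pool.Agent.H99.PW

open Finset MeasureTheory ProbabilityTheory Measure Filter Topology Pool.Agent.Lib.helper3.Padic
open Pool.Agent.H.MP_01c081_pr (th dir gap nbr Full DPP Palm nb' iv iv_iv dir_iv gap_le gap_mem
  nb_iv walk_eq gap_m Xi walk trans en_s)
open scoped ENNReal

variable {n m : ℕ → ℕ} (A : Adm n m) {z : ℤ_[2]}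
include A

lemma Adm.lt (j : ℕ) : (2 : ℤ) ^ n j < 2 ^ m j :=
  pow_lt_pow_right₀ (by norm_num) (by have := A.h1 j; omega)

lemma up (hz : occ n m z) {j : ℕ} (hj : res (m j) z = 0) (hmax : ∀ i, j < i → res (m i) z ≠ 0) :
    occ n m (z + ((2 ^ n j : ℤ) : ℤ_[2])) := by
  rintro i ⟨p1, p2⟩
  rw [res_add] at p1 p2
  push_cast at p1 p2
  have q1 : (0 : ℤ) < 2 ^ n j := by positivity
  rcases le_or_gt i j with hi | hi
  · rw [res_mono (A.m_mono hi) z, hj] at p1 p2
    simp only [EuclideanDomain.zero_mod, zero_add] at p1 p2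
    rcases le_or_gt (m i) (n j) with h | h
    · rw [Int.emod_eq_zero_of_dvd (pow_dvd_pow _ h)] at p1
      exact p1.false
    · rw [Int.emod_eq_of_lt (by positivity) (pow_lt_pow_right₀ (by norm_num) h)] at p2
      exact absurd p2 (not_lt.2 (pow_le_pow_right₀ (by norm_num) (A.mono hi)))
  · have x0 := res_nonneg (m i) z
    have x1 := res_lt (m i) z
    push_cast at x1
    have x2 : (2 : ℤ) ^ m j ∣ res (m i) z := by
      rw [res_mono (A.m_mono hi.le) z] at hj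
      exact Int.dvd_of_emod_eq_zero hj
    have x3 := hmax i hi
    have x4 : (2 : ℤ) ^ n i ≤ res (m i) z := by
      by_contra h
      exact hz i ⟨lt_of_le_of_ne x0 (Ne.symm x3), not_le.1 h⟩
    have x5 : (2 : ℤ) ^ m j ∣ 2 ^ m i - res (m i) z := dvd_sub (pow_dvd_pow _ (A.m_mono hi.le)) x2
    have x6 := Int.le_of_dvd (by linarith) x5
    have x7 := A.lt j
    rw [Int.emod_eq_of_lt (by linarith) (by linarith)] at p2
    linarith

lemma dn (hz : occ n m z) {j : ℕ} (hj : res (m j) z = 2 ^ n j)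
    (hmax : ∀ i, j < i → res (m i) z ≠ 2 ^ n i) :
    occ n m (z + ((-2 ^ n j : ℤ) : ℤ_[2])) := by
  rintro i ⟨p1, p2⟩
  rw [res_add] at p1 p2
  push_cast at p1 p2
  have q1 : (0 : ℤ) < 2 ^ n j := by positivity
  rcases le_or_gt i j with hi | hi
  · rw [res_mono (A.m_mono hi) z, hj] at p1
    push_cast at p1
    rw [Int.add_emod, Int.emod_emod, ← Int.add_emod, add_neg_cancel] at p1
    simp at p1
  · have x0 := res_nonneg (m i) z
    have x1 := res_lt (m i) z
    push_cast at x1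
    have x2 : res (m i) z % 2 ^ m j = 2 ^ n j := by
      have := res_mono (A.m_mono hi.le) z
      rw [hj] at this
      push_cast at this
      exact this.symm
    have x3 := Int.mul_ediv_add_emod (res (m i) z) (2 ^ m j)
    rw [x2] at x3
    have x7 := A.lt j
    obtain ⟨ρ, hρ⟩ : ∃ ρ, ρ = res (m i) z - 2 ^ n j := ⟨_, rfl⟩
    have y1 : (2 : ℤ) ^ m j ∣ ρ := ⟨res (m i) z / 2 ^ m j, by rw [hρ]; linarith⟩
    have y2 : 0 ≤ ρ := by
      have := Int.ediv_nonneg x0 (show (0 : ℤ) ≤ 2 ^ m j by positivity)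
      have h5 := mul_nonneg (show (0 : ℤ) ≤ 2 ^ m j by positivity) this
      rw [hρ]; linarith
    rw [← sub_eq_add_neg, ← hρ, Int.emod_eq_of_lt y2 (by linarith)] at p1 p2
    have x4 : (2 : ℤ) ^ n i ≤ res (m i) z := by
      by_contra h
      exact hz i ⟨by linarith, not_le.1 h⟩
    have x5 := lt_of_le_of_ne x4 (Ne.symm (hmax i hi))
    rcases le_or_gt (n i) (m j) with h | h
    · have := Int.le_of_dvd p1 y1
      have h6 : (2 : ℤ) ^ n i ≤ 2 ^ m j := pow_le_pow_right₀ (by norm_num) h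
      linarith
    · have := Int.le_of_dvd (by linarith) (dvd_sub (pow_dvd_pow (2 : ℤ) h.le) y1)
      linarith

lemma up1 (hz : occ n m z) (hmax : ∀ i, res (m i) z ≠ 0) : occ n m (z + ((1 : ℤ) : ℤ_[2])) := by
  rintro i ⟨p1, p2⟩
  rw [res_add] at p1 p2
  push_cast at p1 p2
  have x0 := res_nonneg (m i) z
  have x1 := res_lt (m i) z
  push_cast at x1
  have x4 : (2 : ℤ) ^ n i ≤ res (m i) z := by
    by_contra h
    exact hz i ⟨lt_of_le_of_ne x0 (Ne.symm (hmax i)), not_le.1 h⟩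
  rcases lt_or_ge (res (m i) z + 1) (2 ^ m i) with h | h
  · rw [Int.emod_eq_of_lt (by linarith) h] at p2
    linarith
  · rw [show res (m i) z + 1 = 2 ^ m i by linarith, Int.emod_self] at p1
    exact p1.false

lemma dn1 (hz : occ n m z) (hmax : ∀ i, res (m i) z ≠ 2 ^ n i) :
    occ n m (z + ((-1 : ℤ) : ℤ_[2])) := by
  rintro i ⟨p1, p2⟩
  rw [res_add] at p1 p2
  push_cast at p1 p2
  have x0 := res_nonneg (m i) z
  have x1 := res_lt (m i) z
  push_cast at x1
  have x7 := A.lt i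
  have x8 : (0 : ℤ) < 2 ^ n i := by positivity
  rcases x0.eq_or_lt with h | h
  · rw [← h, zero_add, ← Int.add_emod_right, Int.emod_eq_of_lt (by linarith) (by linarith)] at p2
    linarith
  · have x4 : (2 : ℤ) ^ n i ≤ res (m i) z := by
      by_contra h'
      exact hz i ⟨h, not_le.1 h'⟩
    have x5 := lt_of_le_of_ne x4 (Ne.symm (hmax i))
    rw [Int.emod_eq_of_lt (by linarith) (by linarith)] at p2
    linarith

omit A in
lemma gapb {z : ℤ_[2]} (d : Fin 4) {K : ℕ} (hK : 0 < K)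
    (h : occ n m (z + ((K * ((dir d).1 + (dir d).2) : ℤ) : ℤ_[2]))) :
    gap (dir d) (Ph n m z) ≤ K := by
  refine Nat.sInf_le ⟨hK, ?_⟩
  have e : (K • dir d).1 + (K • dir d).2 = K * ((dir d).1 + (dir d).2) := by
    rw [Prod.smul_fst, Prod.smul_snd, nsmul_eq_mul, nsmul_eq_mul]
    ring
  simp only [Ph, decide_eq_true_eq]
  rw [e]
  exact h

lemma fin_exc : ∀ᵐ z ∂(H 2), {j | res (m j) z = 0}.Finite ∧ {j | res (m j) z = 2 ^ n j}.Finite := by
  have hs : ∑' j, ((2 : ℝ≥0∞) ^ m j)⁻¹ ≠ ⊤ := by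
    refine ne_top_of_le_ne_top (b := ∑' j : ℕ, (2⁻¹ : ℝ≥0∞) ^ j) ?_ (ENNReal.tsum_le_tsum fun j => ?_)
    · rw [ENNReal.tsum_geometric]; simp
    · rw [← ENNReal.inv_pow]
      exact ENNReal.inv_le_inv.2 (pow_le_pow_right₀ (by norm_num) (by have := A.h1 j; omega))
  have e1 : ∀ j, H 2 {z | res (m j) z = 0} = ((2 : ℝ≥0∞) ^ m j)⁻¹ := fun j => by
    have := H_res (p := 2) (m j) (a := 0) le_rfl (by positivity)
    push_cast at this
    exact this
  have e2 : ∀ j, H 2 {z | res (m j) z = 2 ^ n j} = ((2 : ℝ≥0∞) ^ m j)⁻¹ := fun j => by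
    have := H_res (p := 2) (m j) (a := 2 ^ n j) (by positivity) (by push_cast; exact A.lt j)
    push_cast at this
    exact this
  have h1 := ae_finite_setOfPred_mem (μ := H 2) (s := fun j => {z | res (m j) z = 0})
    (by simp only [e1]; exact hs)
  have h2 := ae_finite_setOfPred_mem (μ := H 2) (s := fun j => {z | res (m j) z = 2 ^ n j})
    (by simp only [e2]; exact hs)
  filter_upwards [h1, h2] with z a b
  exact ⟨a, b⟩

omit A in
lemma exists_max {P : ℕ → Prop} (hf : {j | P j}.Finite) {j0 : ℕ} (h0 : P j0) :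
    ∃ j, P j ∧ ∀ i, j < i → ¬ P i := by
  obtain ⟨j, hj, hm⟩ := hf.exists_le_maximal h0
  exact ⟨j, hm.prop, fun i hi hP => absurd (hm.le_of_ge hP hi.le) (by omega)⟩

lemma gap_key (hz : occ n m z)
    (hf : {j | res (m j) z = 0}.Finite ∧ {j | res (m j) z = 2 ^ n j}.Finite) (d : Fin 4) :
    gap (dir d) (Ph n m z) ≤ 1 ∨
      (∃ j, res (m j) z = 0 ∧ gap (dir d) (Ph n m z) ≤ 2 ^ n j) ∨
      ∃ j, res (m j) z = 2 ^ n j ∧ gap (dir d) (Ph n m z) ≤ 2 ^ n j := by
  have hd : (dir d).1 + (dir d).2 = 1 ∨ (dir d).1 + (dir d).2 = -1 := by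
    fin_cases d <;> simp [dir]
  rcases hd with hd | hd
  · by_cases h : ∃ j, res (m j) z = 0
    · obtain ⟨j0, hj0⟩ := h
      obtain ⟨j, hj, hmax⟩ := exists_max hf.1 hj0
      refine .inr (.inl ⟨j, hj, gapb d (by positivity) ?_⟩)
      rw [hd, mul_one]
      exact_mod_cast up A hz hj hmax
    · refine .inl (gapb d one_pos ?_)
      rw [hd, mul_one]
      exact_mod_cast up1 A hz (not_exists.1 h)
  · by_cases h : ∃ j, res (m j) z = 2 ^ n j
    · obtain ⟨j0, hj0⟩ := h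
      obtain ⟨j, hj, hmax⟩ := exists_max hf.2 hj0
      refine .inr (.inr ⟨j, hj, gapb d (by positivity) ?_⟩)
      rw [hd, mul_neg_one]
      exact_mod_cast dn A hz hj hmax
    · refine .inl (gapb d one_pos ?_)
      rw [hd, mul_neg_one]
      exact_mod_cast dn1 A hz (not_exists.1 h)

lemma gap_pow {σ : ℝ} (h0 : 0 ≤ σ) (hz : occ n m z)
    (hf : {j | res (m j) z = 0}.Finite ∧ {j | res (m j) z = 2 ^ n j}.Finite) (d : Fin 4) :
    ((gap (dir d) (Ph n m z) : ℕ) : ℝ≥0∞) ^ σ ≤ 1 +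
      (∑' j, {z | res (m j) z = 0}.indicator (fun _ => ((2 : ℝ≥0∞) ^ n j) ^ σ) z +
      ∑' j, {z | res (m j) z = 2 ^ n j}.indicator (fun _ => ((2 : ℝ≥0∞) ^ n j) ^ σ) z) := by
  rcases gap_key A hz hf d with h | ⟨j, hj, h⟩ | ⟨j, hj, h⟩
  · refine (ENNReal.rpow_le_rpow (show ((gap (dir d) (Ph n m z) : ℕ) : ℝ≥0∞) ≤ 1 by
      exact_mod_cast h) h0).trans ?_
    rw [ENNReal.one_rpow]
    exact le_self_add
  · refine (ENNReal.rpow_le_rpow (show ((gap (dir d) (Ph n m z) : ℕ) : ℝ≥0∞) ≤ 2 ^ n j by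
      exact_mod_cast h) h0).trans ?_
    refine le_add_left (le_add_right (le_trans ?_ (ENNReal.le_tsum j)))
    rw [Set.indicator_of_mem (by exact hj)]
  · refine (ENNReal.rpow_le_rpow (show ((gap (dir d) (Ph n m z) : ℕ) : ℝ≥0∞) ≤ 2 ^ n j by
      exact_mod_cast h) h0).trans ?_
    refine le_add_left (le_add_left (le_trans ?_ (ENNReal.le_tsum j)))
    rw [Set.indicator_of_mem (by exact hj)]

theorem moment {σ : ℝ} (h0 : 0 ≤ σ) (hs : ∑' j, ((2 : ℝ≥0∞) ^ n j) ^ σ * ((2 : ℝ≥0∞) ^ m j)⁻¹ ≠ ⊤)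
    (d : Fin 4) : ∫⁻ ω, ((gap (dir d) ω : ℕ) : ℝ≥0∞) ^ σ ∂(Palm (QQ n m)) < ⊤ := by
  have e1 : ∀ j, H 2 {z | res (m j) z = 0} = ((2 : ℝ≥0∞) ^ m j)⁻¹ := fun j => by
    have := H_res (p := 2) (m j) (a := 0) le_rfl (by positivity)
    push_cast at this
    exact this
  have e2 : ∀ j, H 2 {z | res (m j) z = 2 ^ n j} = ((2 : ℝ≥0∞) ^ m j)⁻¹ := fun j => by
    have := H_res (p := 2) (m j) (a := 2 ^ n j) (by positivity) (by push_cast; exact A.lt j)
    push_cast at this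
    exact this
  have m1 : ∀ a : ℕ → ℤ, ∀ j, MeasurableSet {z : ℤ_[2] | res (m j) z = a j} := fun a j =>
    res_meas (p := 2) (m j) (measurableSet_singleton (a j))
  have hmz : Measurable fun ω : ℤ × ℤ → Bool => ((gap (dir d) ω : ℕ) : ℝ≥0∞) ^ σ :=
    (measurable_of_countable (fun k : ℕ => (k : ℝ≥0∞) ^ σ)).comp (gap_m (dir d))
  have hS : MeasurableSet {ω : ℤ × ℤ → Bool | ω 0 = true} := measurableSet_setOfPred.2 (by fun_prop)
  rw [Palm, ProbabilityTheory.cond, lintegral_smul_measure]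
  refine ENNReal.mul_lt_top (ENNReal.inv_lt_top.2 (pos_iff_ne_zero.2 (Q0 A))) ?_
  rw [QQ, setLIntegral_map hS hmz (Ph_m n m)]
  have b : ∫⁻ z in Ph n m ⁻¹' {ω : ℤ × ℤ → Bool | ω 0 = true},
      ((gap (dir d) (Ph n m z) : ℕ) : ℝ≥0∞) ^ σ ∂(H 2) ≤ ∫⁻ z, (1 +
      (∑' j, {z | res (m j) z = 0}.indicator (fun _ => ((2 : ℝ≥0∞) ^ n j) ^ σ) z +
      ∑' j, {z | res (m j) z = 2 ^ n j}.indicator (fun _ => ((2 : ℝ≥0∞) ^ n j) ^ σ) z)) ∂(H 2) := by
    refine le_trans (setLIntegral_mono_ae' ((Ph_m n m) hS) ?_) (setLIntegral_le_lintegral _ _)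
    filter_upwards [fin_exc A] with z hz ho
    refine gap_pow A h0 ?_ hz d
    simpa [Ph] using ho
  refine b.trans_lt ?_
  rw [lintegral_add_left measurable_const, lintegral_const, measure_univ, mul_one,
    lintegral_add_left (Measurable.tsum fun j => measurable_const.indicator (m1 (fun _ => 0) j)),
    lintegral_tsum fun j => (measurable_const.indicator (m1 (fun _ => 0) j)).aemeasurable,
    lintegral_tsum fun j => (measurable_const.indicator (m1 (fun j => 2 ^ n j) j)).aemeasurable]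
  simp only [lintegral_indicator_const (m1 (fun _ => 0) _),
    lintegral_indicator_const (m1 (fun j => 2 ^ n j) _), e1, e2]
  exact ENNReal.add_lt_top.2 ⟨ENNReal.one_lt_top, ENNReal.add_lt_top.2
    ⟨lt_top_iff_ne_top.2 hs, lt_top_iff_ne_top.2 hs⟩⟩

lemma m_add (j0 j : ℕ) : m j0 + j ≤ m (j0 + j) := by
  induction j with
  | zero => simp
  | succ j ih =>
    have := A.h4 (j0 + j)
    rw [← add_assoc j0 j 1]
    omega

theorem tail {K : ℕ} (hK : 2 ≤ K) {j0 : ℕ} (hj0 : ∀ j, K ≤ 2 ^ n j → j0 ≤ j) (d : Fin 4) :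
    Palm (QQ n m) {ω | K ≤ gap (dir d) ω} ≤
      (QQ n m {ω | ω 0 = true})⁻¹ * (4 * (2 ^ m j0)⁻¹) := by
  have e1 : ∀ j, H 2 {z | res (m j) z = 0} = ((2 : ℝ≥0∞) ^ m j)⁻¹ := fun j => by
    have := H_res (p := 2) (m j) (a := 0) le_rfl (by positivity)
    push_cast at this
    exact this
  have e2 : ∀ j, H 2 {z | res (m j) z = 2 ^ n j} = ((2 : ℝ≥0∞) ^ m j)⁻¹ := fun j => by
    have := H_res (p := 2) (m j) (a := 2 ^ n j) (by positivity) (by push_cast; exact A.lt j)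
    push_cast at this
    exact this
  have hS : MeasurableSet {ω : ℤ × ℤ → Bool | ω 0 = true} := measurableSet_setOfPred.2 (by fun_prop)
  have hT : MeasurableSet {ω : ℤ × ℤ → Bool | K ≤ gap (dir d) ω} :=
    gap_m (dir d) (MeasurableSet.of_discrete (s := {k | K ≤ k}))
  rw [Palm, cond_apply hS]
  refine mul_le_mul_right ?_ _
  rw [QQ, map_apply (Ph_m n m) (hS.inter hT)]
  refine le_trans (measure_mono_ae (t := ⋃ j, ({z | res (m (j0 + j)) z = 0} ∪
    {z | res (m (j0 + j)) z = 2 ^ n (j0 + j)})) ?_) ?_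
  · filter_upwards [fin_exc A] with z hz hs
    obtain ⟨h1, h2⟩ := hs
    have h1' : occ n m z := by simpa [Ph] using h1
    have h2' : K ≤ gap (dir d) (Ph n m z) := h2
    rcases gap_key A h1' hz d with h | ⟨j, hj, h⟩ | ⟨j, hj, h⟩
    · omega
    · obtain ⟨i, rfl⟩ := Nat.exists_eq_add_of_le (hj0 j (h2'.trans h))
      exact Set.mem_iUnion.2 ⟨i, .inl hj⟩
    · obtain ⟨i, rfl⟩ := Nat.exists_eq_add_of_le (hj0 j (h2'.trans h))
      exact Set.mem_iUnion.2 ⟨i, .inr hj⟩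
  · refine (measure_iUnion_le _).trans ?_
    refine (ENNReal.tsum_le_tsum (g := fun j => 2 * (2 ^ m j0)⁻¹ * 2⁻¹ ^ j) fun j => ?_).trans_eq ?_
    · refine (measure_union_le _ _).trans ?_
      rw [e1, e2, ← two_mul, mul_assoc]
      refine mul_le_mul_right ?_ _
      rw [← ENNReal.inv_pow, ← ENNReal.mul_inv (by simp) (by simp), ← pow_add]
      exact ENNReal.inv_le_inv.2 (pow_le_pow_right₀ (by norm_num) (m_add A j0 j))
    · rw [ENNReal.tsum_mul_left, ENNReal.tsum_geometric, ENNReal.one_sub_inv_two, inv_inv]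
      ring

end Pool.Agent.H99.PW
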