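import Pool.Agent.H99.PW.B

/-!
Transience of the walk for a sequence of windows whose lengths are nearly the square roots of the
periods.
-/

set_option linter.unusedSectionVars false
set_option linter.unusedVariables false
set_option linter.dupNamespace false

namespace Pool.Agent.H99.PW

open Finset MeasureTheory ProbabilityTheory Measure Filter Topology Pool.Agent.Lib.helper3.Padic
open Pool.Agent.H.MP_01c081_pr (th dir gap nbr Full DPP Palm nb' iv iv_iv dir_iv gap_le gap_mem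
  nb_iv walk_eq gap_m Xi walk trans en_s)
open Pool.Agent.H.MP_4a7829_pr (S vert step)
open scoped ENNReal

/-- the binary logarithm of `i + 2`, rounded up -/
def el (i : ℕ) : ℕ := Nat.size (i + 2)

/-- half of the exponents of the periods -/
def mu : ℕ → ℕ
  | 0 => 100
  | i + 1 => mu i + el i

/-- exponents of the lengths of the windows -/
def nP (j : ℕ) : ℕ := mu j + 2 * el j + 4 * el (j + 1) + 2

/-- exponents of the periods -/
def mP (j : ℕ) : ℕ := 2 * mu j

/-- exponents for the averages -/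
def vP (j : ℕ) : ℕ := mu j + 2 * el j + 1

/-- numbers of diagonal sites over which one averages -/
def wP (j : ℕ) : ℕ := (2 ^ vP j) ^ 2

lemma el_lt (i : ℕ) : i + 2 < 2 ^ el i := Nat.lt_size_self (i + 2)

lemma el_le (i : ℕ) : 2 ^ el i ≤ 2 * (i + 2) := by
  have h0 : 0 < el i := Nat.size_pos.2 (by omega)
  have h1 : 2 ^ (el i - 1) ≤ i + 2 := Nat.lt_size.1 (show el i - 1 < Nat.size (i + 2) by
    have : el i = Nat.size (i + 2) := rfl
    omega)
  calc 2 ^ el i = 2 * 2 ^ (el i - 1) := by rw [← pow_succ', Nat.sub_add_cancel h0]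
    _ ≤ 2 * (i + 2) := by omega

lemma el_two (i : ℕ) : 2 ≤ el i := by
  by_contra h
  have h1 := el_lt i
  have : 2 ^ el i ≤ 2 ^ 1 := Nat.pow_le_pow_right (by norm_num) (by omega)
  omega

lemma el_mono (i : ℕ) : el i ≤ el (i + 1) := Nat.size_le_size (by omega)

lemma el_bd (i : ℕ) : el i ≤ i / 8 + 10 := by
  refine Nat.size_le.2 ?_
  have h1 : i / 8 < 2 ^ (i / 8) := Nat.lt_two_pow_self
  have h2 : (2 : ℕ) ^ (i / 8 + 10) = 2 ^ (i / 8) * 1024 := by rw [pow_add]; norm_num
  have h3 : i < 8 * (i / 8) + 8 := by omega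
  omega

lemma mu_ge (j : ℕ) : 100 + 2 * j ≤ mu j := by
  induction j with
  | zero => simp [mu]
  | succ j ih =>
    have := el_two j
    rw [mu]
    omega

lemma v_mono (j : ℕ) : vP j ≤ vP (j + 1) := by
  have := el_mono j
  unfold vP
  rw [mu]
  omega

lemma admP : Adm nP mP where
  h1 j := by
    have h1 := el_bd j
    have h2 := el_bd (j + 1)
    have h3 := mu_ge j
    unfold nP mP
    omega
  h3 j := by
    have h1 := el_bd j
    have h2 := el_bd (j + 1)
    have h4 := el_bd (j + 1 + 1)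
    have h3 := mu_ge j
    unfold nP mP
    rw [mu]
    omega
  h4 j := by
    have := el_two j
    unfold mP
    rw [mu]
    omega
  h5 := by
    have hs : Summable fun j : ℕ => 1 / ((j : ℝ) + 1) ^ 2 := by
      have := (summable_nat_add_iff 1).2 (Real.summable_one_div_nat_pow.2 (one_lt_two))
      simpa using this
    refine ne_top_of_le_ne_top (hs.tsum_ofReal_ne_top) (ENNReal.tsum_le_tsum fun j => ?_)
    have e : (2 : ENNReal) ^ mP j * (2 ^ mP (j + 1))⁻¹ = (2 ^ (2 * el j))⁻¹ := by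
      have : mP (j + 1) = mP j + 2 * el j := by unfold mP; rw [mu]; ring
      rw [this, pow_add, ENNReal.mul_inv (by simp) (by simp), ← mul_assoc,
        ENNReal.mul_inv_cancel (by simp) (by simp), one_mul]
    rw [e, ← ENNReal.ofReal_ofNat, ← ENNReal.ofReal_pow (by norm_num),
      ← ENNReal.ofReal_inv_of_pos (by positivity)]
    refine ENNReal.ofReal_le_ofReal ?_
    rw [one_div]
    refine inv_anti₀ (by positivity) ?_
    rw [mul_comm, pow_mul]
    have h1 : ((j : ℝ) + 2) < 2 ^ el j := by exact_mod_cast el_lt j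
    have h0 : (0 : ℝ) ≤ j := Nat.cast_nonneg j
    exact pow_le_pow_left₀ (by positivity) (by linarith) 2
  mono := monotone_nat_of_le_succ fun j => by
    have h1 := el_mono j
    have h2 := el_mono (j + 1)
    unfold nP
    rw [mu]
    omega

lemma ar0 (j : ℕ) : nP j ≤ vP j * 2 := by
  have h2 := el_bd (j + 1)
  have h3 := mu_ge j
  unfold nP vP
  omega

lemma ar1 (j : ℕ) : 2 * (vP (j + 1) - vP j) + 1 + vP j + 2 * el j ≤ nP j := by
  have h1 := el_mono j
  unfold nP vP
  rw [mu]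
  omega

lemma ar2 (j : ℕ) : mP (j + 1) + 1 + 2 * el j * 2 ≤ vP (j + 1) * 2 := by
  have h1 := el_mono j
  unfold mP vP
  rw [mu]
  omega

lemma ar3 (k J : ℕ) : k ≤ mP (k + J) := by
  have := mu_ge (k + J)
  unfold mP
  omega

theorem transP {ω : ℤ × ℤ → Bool} (h : Str nP mP ω) (o : ω 0 = true) :
    ∀ᵐ ξ ∂Xi, {n | walk (nbr ω) 0 ξ n = 0}.Finite := by
  have hF := full admP h
  simp only [← (walk_eq hF o _ _).1]
  obtain ⟨hd, j1, hj⟩ := h
  obtain ⟨g, hg⟩ : ∃ g : ℤ → ℕ, g = fun s => if ω (s, 0) then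
    sInf {k : ℕ | 0 < k ∧ ω (s + k, 0) = true} else 0 := ⟨_, rfl⟩
  have h0 : ∀ s y, nb' ω (s - y, y) 0 = (s + g s - y, y) := fun s y => by
    simp only [hg, nb', nbr, gap, th, hd (_ + _), hd (_ - _, _), dir]
    split_ifs <;> simp_all [sub_add_eq_add_sub]
  have h2 : ∀ s y, nb' ω (s - y, y) 2 = (s - y, y + g s) := fun s y => by
    simp only [hg, nb', nbr, gap, th, hd (_ + _), hd (_ - _, _), dir]
    split_ifs <;> simp_all [← add_assoc]
  have a0 : ∀ s, ¬ ω (s, 0) = true → g s = 0 := fun s h => by simp [hg, h]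
  have a1 : ∀ s, ω (s, 0) = true → 0 < g s ∧ ω (s + g s, 0) = true := fun s h => by
    simp only [hg, h, if_true]
    exact Nat.sInf_mem (s := {k : ℕ | 0 < k ∧ ω (s + k, 0) = true}) (by
      simpa [dir, Set.Nonempty] using hF (s, 0) 0)
  have a2 : ∀ s t, ω (s, 0) = true → ω (t, 0) = true → s < t → s + g s ≤ t := fun s t h h' k => by
    obtain ⟨a, rfl⟩ := Int.le.dest k.le
    simp only [hg, h, if_true]
    have := Nat.sInf_le (s := {k : ℕ | 0 < k ∧ ω (s + k, 0) = true}) (m := a) ⟨by omega, h'⟩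
    omega
  have T : ∀ k : ℕ, ∃ t : ℤ, ω (t, 0) = true ∧ ω (t - 1, 0) = true ∧ g t = 2 ^ nP (k + j1) ∧
      2 ^ (mP (k + j1)) < t ∧ t ≤ 2 * 2 ^ (mP (k + j1)) := fun k => by
    obtain ⟨r, r1, r2⟩ := hj (k + j1) (by omega)
    generalize k + j1 = j at *
    have p2 : (2 : ℤ) ^ nP j ≤ 2 ^ (mP j) :=
      pow_le_pow_right₀ (by norm_num) (by have := admP.h1 j; omega)
    have p3 : (0 : ℤ) < 2 ^ nP j := by positivity
    generalize (2 : ℤ) ^ (mP j) = M at *
    have m1 := Int.emod_nonneg r (by linarith : M ≠ 0)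
    have m2 := Int.emod_lt_of_pos r (by linarith : 0 < M)
    have m3 : M ∣ r + (2 * M - r % M) := ⟨2 + r / M, by linarith [Int.mul_ediv_add_emod r M]⟩
    have o1 := r1 (2 * M - r % M) 0 (abs_le.2 ⟨by linarith, by linarith⟩) (.inl rfl) (by simpa using m3)
    refine ⟨_, o1, r1 _ (-1) (abs_le.2 ⟨by linarith, by linarith⟩) (by simp) (by convert m3 using 1; ring),
      ?_, by linarith, by linarith⟩
    have b1 := a2 _ _ o1 (r1 (2 * M - r % M + 2 ^ nP j) _ (abs_le.2 ⟨by linarith, by linarith⟩)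
      (.inr (.inr rfl)) (by convert m3 using 1; ring)) (by linarith)
    have b2 := fun k => r2 _ _ m3 (by exact_mod_cast (a1 _ o1).1) k (a1 _ o1).2
    zify; exact le_antisymm (by linarith) (not_lt.1 b2)
  generalize hJ : j1 = J at T
  choose t t1 t2 t3 t4 t5 using T
  have tm : ∀ k, t k ≤ t (k + 1) := fun k => by
    refine (t5 k).trans (le_trans ?_ (t4 _).le)
    rw [← pow_succ', add_right_comm k]
    exact pow_le_pow_right₀ (by norm_num) (by have := admP.h4 (k + J); omega)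
  have t0 : (0 : ℤ) < t 0 := lt_trans (by positivity) (t4 0)
  refine trans iv_iv (nb_iv hF) 0 (C := (√(t 0) + (2 * wP J + 1) + ∑' k : ℕ, 2 / ((k : ℝ) + 1) ^ 2) ^ 2) (fun F hf => ?_) (sq_nonneg _)
  have hs := en_s iv_iv (nb_iv hF) hf
  obtain ⟨E, hE⟩ : ∃ E, E = √(∑' p : (ℤ × ℤ) × Fin 4, (F p.1 - F (nb' ω p.1 p.2)) ^ 2) := ⟨_, rfl⟩
  have E0 : 0 ≤ E := hE ▸ Real.sqrt_nonneg _
  have w0 : ∀ j, 0 < wP j := fun j => by unfold wP; positivity
  have b1 := vert hs hE h0 a0 a1 a2 (s := 0) o (t2 0) (by omega) 1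
  have g1 : g (t 0 - 1) = 1 := by
    have := a2 _ _ (t2 0) (t1 0) (by omega)
    have := (a1 _ (t2 0)).1
    omega
  have b2 := step hs hE h0 h2 a0 a1 a2 (t2 0) (t1 0) (by omega) (W := 1) (by rw [g1]) one_pos (w0 J)
  have hsum : Summable fun k : ℕ => 2 / ((k : ℝ) + 1) ^ 2 := by
    have := (summable_nat_add_iff 1).2 (Real.summable_one_div_nat_pow.2 (one_lt_two))
    refine (this.mul_left 2).congr fun k => ?_
    push_cast
    ring
  have b3 := dist_le_tsum_of_dist_le_of_tendsto₀ (fun k : ℕ => 2 / ((k : ℝ) + 1) ^ 2 * E)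
    (f := fun k => S F (t k) 0 (wP (k + J)) / wP (k + J)) (a := 0) (fun k => ?_) (hsum.mul_right E) ?_
  · rw [tsum_mul_right] at b3
    rw [← Real.sq_sqrt (tsum_nonneg fun _ => sq_nonneg _), ← hE, ← mul_pow]
    refine sq_le_sq' ?_ ?_ <;>
    · have c1 : √((1 : ℕ) * (((t 0 - 1 : ℤ) : ℝ) - (0 : ℤ))) ≤ √(t 0) := Real.sqrt_le_sqrt (by simp)
      have c2 : √(((t 0 : ℝ) - (t 0 - 1 : ℤ)) / (wP J * 1 : ℕ)) ≤ 1 := Real.sqrt_le_one.2 (by
        rw [div_le_one (by simpa using w0 J)]; simpa using Nat.succ_le_of_lt (w0 J))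
      have c3 := mul_le_mul_of_nonneg_right c1 E0
      have c4 := mul_le_mul_of_nonneg_right c2 E0
      have c5 : S F 0 0 1 = F 0 := by simp [S]; rfl
      simp only [g1, mul_one, Nat.cast_one, Real.sqrt_one, div_one, Real.dist_eq, zero_add, sub_zero,
        abs_le, c5] at b1 b2 b3 c3 c4
      linarith [b1.1, b1.2, b2.1, b2.2, b3.1, b3.2]
  · obtain ⟨j, e, jk⟩ : ∃ j, k + J = j ∧ k ≤ j := ⟨_, rfl, by omega⟩
    have hv := v_mono j
    have e' : wP (j + 1) = 2 ^ (2 * (vP (j + 1) - vP j)) * wP j := by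
      unfold wP
      rw [← pow_mul, ← pow_mul, ← pow_add]
      congr 1
      omega
    have hpow : (1 : ℝ) / 2 ^ (2 * el j) ≤ 1 / ((k : ℝ) + 1) ^ 2 := by
      refine one_div_le_one_div_of_le (by positivity) ?_
      rw [mul_comm, pow_mul]
      have h1 : ((j : ℝ) + 2) < 2 ^ el j := by exact_mod_cast el_lt j
      have h2 : (k : ℝ) ≤ j := by exact_mod_cast jk
      exact pow_le_pow_left₀ (by positivity) (by linarith) 2
    have st := step hs hE h0 h2 a0 a1 a2 (t1 k) (t1 _) (tm k) (W := wP j) (l := 2 ^ (2 * (vP (j + 1) - vP j))) (by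
      rw [t3, e, wP, ← pow_mul]; exact pow_dvd_pow _ (ar0 j)) (w0 j) (by positivity)
    rw [Real.dist_eq, Nat.succ_eq_add_one, add_right_comm k, e, e']
    refine st.trans ?_
    have u5 := t5 (k + 1)
    have u4 := t4 k
    rw [add_right_comm k, e] at u5
    have c1 : 2 * (2 ^ (2 * (vP (j + 1) - vP j)) : ℕ) * √(wP j) / (g (t k) : ℝ) ≤
        1 / 2 ^ (2 * el j) := by
      rw [t3, e, wP, div_le_div_iff₀ (by positivity) (by positivity)]
      push_cast
      rw [Real.sqrt_sq (by positivity), ← pow_succ', ← pow_add, ← pow_add, one_mul]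
      exact pow_le_pow_right₀ (by norm_num) (by have := ar1 j; omega)
    have c2 : √(((t (k + 1) : ℝ) - t k) / (2 ^ (2 * (vP (j + 1) - vP j)) * wP j : ℕ)) ≤
        1 / 2 ^ (2 * el j) := by
      refine Real.sqrt_le_iff.2 ⟨by positivity, ?_⟩
      rw [← e', div_pow, div_le_div_iff₀ (by exact_mod_cast w0 _) (by positivity), wP]
      have : (t (k + 1) : ℝ) - t k ≤ 2 * 2 ^ (mP (j + 1)) := by
        exact_mod_cast (sub_le_self _ (lt_trans (by positivity) u4).le).trans u5
      refine (mul_le_mul_of_nonneg_right this (by positivity)).trans ?_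
      push_cast
      rw [← pow_mul, ← pow_mul, ← pow_succ', ← pow_add, one_pow, one_mul]
      exact pow_le_pow_right₀ (by norm_num) (by have := ar2 j; omega)
    refine (mul_le_mul_of_nonneg_right (add_le_add (c1.trans hpow) (c2.trans hpow)) E0).trans_eq
      (by ring)
  · obtain ⟨B, hB⟩ := (hf.image fun v => (v.1 + v.2).toNat).bddAbove
    refine tendsto_const_nhds.congr' (eventually_atTop.2 ⟨B, fun k hk => ?_⟩)
    simp only
    rw [S, Finset.sum_eq_zero, zero_div]
    intro y _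
    by_contra hy
    have := hB ⟨_, hy, rfl⟩
    have u : ((mP (k + J) : ℕ) : ℤ) < 2 ^ (mP (k + J)) := by
      exact_mod_cast Nat.lt_two_pow_self
    have u' : k ≤ mP (k + J) := ar3 k J
    have := t4 k
    simp only at *
    omega

end Pool.Agent.H99.PW
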